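import Pool.Agent.Helper85.IA.St

/-!
# Project IA, part N: module LO3 (locality of `F3` from the locality of `F2`)
-/

set_option autoImplicit false

namespace Pool.Agent.Helper2.IA85

open Finset Pool.Agent.Helper93.IA Pool.Agent.Helper85.IA

variable {α β γ : Type} [Fintype α] [Fintype β] [Fintype γ] [DecidableEq α] [DecidableEq β]
  [DecidableEq γ]

/-- The outcome with the two classes exchanged. -/
private def sw (σ : α × β → Option γ) : β × α → Option γ := fun q => σ (q.2, q.1)

omit [Fintype α] [Fintype β] [Fintype γ] in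
private theorem sw_update (σ : α × β → Option γ) (p : α × β) (v : Option γ) :
    sw (Function.update σ p v) = Function.update (sw σ) (p.2, p.1) v := by
  funext q
  obtain ⟨b, a⟩ := q
  obtain ⟨a0, b0⟩ := p
  unfold sw
  by_cases h : (a, b) = (a0, b0)
  · have h2 : (b, a) = (b0, a0) := by
      have := Prod.mk.inj h
      rw [this.1, this.2]
    rw [h]
    simp only
    rw [h2]
    simp
  · have h2 : (b, a) ≠ (b0, a0) := by
      intro e
      have := Prod.mk.inj e
      exact h (by rw [this.1, this.2])
    rw [Function.update_of_ne h, Function.update_of_ne h2]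

private theorem Us_sw (σ : α × β → Option γ) (a : α) (b : β) (c : γ) :
    Us (sw σ) b a c ↔ Us σ a b c := by
  unfold Us sw
  constructor
  · rintro ⟨h1, h2, h3⟩
    exact ⟨h1, h3, h2⟩
  · rintro ⟨h1, h2, h3⟩
    exact ⟨h1, h3, h2⟩

private theorem us_sw (σ : α × β → Option γ) (a : α) (b : β) (c : γ) :
    us (sw σ) b a c = us σ a b c := by
  unfold us
  by_cases h : Us σ a b c
  · rw [if_pos h, if_pos ((Us_sw σ a b c).mpr h)]
  · rw [if_neg h, if_neg fun h' => h ((Us_sw σ a b c).mp h')]

private theorem F2_sw (σ : α × β → Option γ) (z : α → ℝ) (s t : ℝ) (b : β) (c : γ) :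
    F2 (sw σ) z s t c b = F3 σ z s t b c := by
  unfold F2 F3 kA kB kC
  simp only [us_sw]

theorem hLO3 : StLO2 → StLO3 := by
  intro h2 α β γ _ _ _ _ _ _ z s t b c hz hs0 hs1 ht0 ht1
  have h := h2 β α γ z s t c b hz hs0 hs1 ht0 ht1
  constructor
  · intro σ p v
    have h1 := h.1 (sw σ) (p.2, p.1) v
    rw [← sw_update, ← sw_update] at h1
    simp only [F2_sw] at h1
    exact h1
  · intro σ p hp
    have hp' : (p.2, p.1) ∉ (univ : Finset (β × α)).filter fun q => q.1 = b := by
      intro hq
      apply hp
      simp only [mem_filter, mem_univ, true_and] at hq ⊢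
      exact hq
    obtain ⟨r, r', hr⟩ := h.2 (sw σ) (p.2, p.1) hp'
    refine ⟨r, r', fun v hv hv' => ?_⟩
    have h1 := hr v hv hv'
    rw [← sw_update, ← sw_update] at h1
    simp only [F2_sw] at h1
    exact h1

end Pool.Agent.Helper2.IA85
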